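import Pool.Agent.Q78.WI.Stm

/-! TD3: the Riemann sums of `J` tend to zero. -/

open MeasureTheory Filter Topology Set

namespace Pool.Agent.Q149.WI

open Pool.Agent.Q78.WI

lemma J_le (τ K s t : ℝ) (c : ℝ → ℝ → ℝ) (hst : s ≤ t) (hK : 0 ≤ K)
    (h : s < τ → ∀ r, s ≤ r → r ≤ min t τ → |c s r - c r (min t τ)| ≤ K) :
    |J τ c s t| ≤ K * (t - s) := by
  unfold J
  split_ifs with hs
  · have hm : s ≤ min t τ := le_min hst hs.le
    have h1 := intervalIntegral.norm_integral_le_of_norm_le_const (a := s) (b := min t τ)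
      (f := fun r => c s r - c r (min t τ)) (C := K) (by
        intro r hr
        rw [uIoc_of_le hm] at hr
        rw [Real.norm_eq_abs]
        exact h hs r hr.1.le hr.2)
    rw [Real.norm_eq_abs, abs_of_nonneg (sub_nonneg.2 hm)] at h1
    refine le_trans h1 (mul_le_mul_of_nonneg_left ?_ hK)
    linarith [min_le_left t τ]
  · rw [abs_zero]
    exact mul_nonneg hK (sub_nonneg.2 hst)

theorem td3 : S_TD3 := by
  intro R C τ c hR hτ hC hc hb
  have hk : ∀ N : ℕ, 0 < N → ∀ k < N, 0 ≤ (k : ℝ) * R / N ∧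
      (k : ℝ) * R / N ≤ ((k : ℝ) + 1) * R / N ∧ ((k : ℝ) + 1) * R / N ≤ R ∧
      ((k : ℝ) + 1) * R / N - (k : ℝ) * R / N = R / N := by
    intro N hN k hk
    have hN' : (0 : ℝ) < N := by exact_mod_cast hN
    have hk' : (k : ℝ) + 1 ≤ N := by exact_mod_cast hk
    have hk0 : (0 : ℝ) ≤ k := by positivity
    refine ⟨by positivity, ?_, ?_, ?_⟩
    · apply div_le_div_of_nonneg_right _ hN'.le
      nlinarith
    · rw [div_le_iff₀ hN']
      nlinarith
    · field_simp
      ring
  refine ⟨?_, ?_⟩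
  · intro N hN k hkN
    obtain ⟨h0, h1, h2, h3⟩ := hk N hN k hkN
    have := J_le τ (2 * C) _ _ c h1 (by positivity) (by
      intro hs r hr1 hr2
      have hτ0 : 0 < τ := lt_of_le_of_lt h0 hs
      have hm : min (((k : ℝ) + 1) * R / N) τ ≤ R := le_trans (min_le_left _ _) h2
      have hrR : r ≤ R := le_trans hr2 hm
      have hr0 : 0 ≤ r := le_trans h0 hr1
      have e1 := hb hτ0 ((k : ℝ) * R / N) ⟨h0, le_trans h1 h2⟩ r ⟨hr0, hrR⟩
        (le_trans hr2 (min_le_right _ _))
      have e2 := hb hτ0 r ⟨hr0, hrR⟩ (min (((k : ℝ) + 1) * R / N) τ) ⟨le_trans hr0 hr2, hm⟩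
        (min_le_right _ _)
      have := abs_sub (c ((k : ℝ) * R / N) r) (c r (min (((k : ℝ) + 1) * R / N) τ))
      linarith)
    rw [h3] at this
    exact this
  · have huc := (isCompact_Icc.prod isCompact_Icc).uniformContinuousOn_of_continuous hc
    rw [Metric.uniformContinuousOn_iff] at huc
    rw [Metric.tendsto_atTop]
    intro ε hε
    obtain ⟨δ, hδ, hu⟩ := huc (ε / (2 * (R + 1))) (by positivity)
    obtain ⟨N₀, hN₀⟩ := exists_nat_gt (R / δ)
    refine ⟨N₀ + 1, fun N hN => ?_⟩
    have hNpos : 0 < N := by omega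
    have hN' : (0 : ℝ) < N := by exact_mod_cast hNpos
    have hNδ : R / N < δ := by
      rw [div_lt_iff₀ hN']
      have h1 : (N₀ : ℝ) < N := by exact_mod_cast (show N₀ < N by omega)
      have h2 : R / δ < N := lt_trans hN₀ h1
      rw [div_lt_iff₀ hδ] at h2
      linarith
    have hterm : ∀ k ∈ Finset.range N,
        |J τ c ((k : ℝ) * R / N) (((k : ℝ) + 1) * R / N)| ≤ ε / (2 * (R + 1)) * (R / N) := by
      intro k hkN
      rw [Finset.mem_range] at hkN
      obtain ⟨h0, h1, h2, h3⟩ := hk N hNpos k hkN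
      have := J_le τ (ε / (2 * (R + 1))) _ _ c h1 (by positivity) (by
        intro hs r hr1 hr2
        have hm : min (((k : ℝ) + 1) * R / N) τ ≤ R := le_trans (min_le_left _ _) h2
        have hm' : min (((k : ℝ) + 1) * R / N) τ ≤ ((k : ℝ) + 1) * R / N := min_le_left _ _
        have hrR : r ≤ R := le_trans hr2 hm
        have hr0 : 0 ≤ r := le_trans h0 hr1
        have hd := hu ((k : ℝ) * R / N, r) ⟨⟨h0, le_trans h1 h2⟩, ⟨hr0, hrR⟩⟩
          (r, min (((k : ℝ) + 1) * R / N) τ) ⟨⟨hr0, hrR⟩, ⟨le_trans hr0 hr2, hm⟩⟩ (by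
            rw [Prod.dist_eq]
            refine max_lt ?_ ?_
            · rw [Real.dist_eq]
              show |(k : ℝ) * R / N - r| < δ
              rw [abs_sub_comm, abs_of_nonneg (by linarith)]
              linarith
            · rw [Real.dist_eq]
              show |r - min (((k : ℝ) + 1) * R / N) τ| < δ
              rw [abs_sub_comm, abs_of_nonneg (by linarith)]
              linarith)
        rw [Real.dist_eq] at hd
        exact hd.le)
      rw [h3] at this
      exact this
    rw [Real.dist_eq, sub_zero]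
    calc |∑ k ∈ Finset.range N, J τ c ((k : ℝ) * R / N) (((k : ℝ) + 1) * R / N)|
        ≤ ∑ k ∈ Finset.range N, |J τ c ((k : ℝ) * R / N) (((k : ℝ) + 1) * R / N)| :=
          Finset.abs_sum_le_sum_abs _ _
      _ ≤ ∑ k ∈ Finset.range N, ε / (2 * (R + 1)) * (R / N) := Finset.sum_le_sum hterm
      _ = ε * (R / (2 * (R + 1))) := by
          rw [Finset.sum_const, Finset.card_range, nsmul_eq_mul]
          field_simp
      _ < ε := by
          have : R / (2 * (R + 1)) < 1 := by
            rw [div_lt_one (by positivity)]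
            linarith
          nlinarith

end Pool.Agent.Q149.WI
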